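import Mathlib
import Pool.Agent.H646.Tuples

/-! Upper bound for prime pairs with the singular series factor to the first power. -/

namespace Pool.Agent.H262R2.UK
open Finset
open Pool.Agent.H646 Pool.Agent.H646.Sv3M Pool.Agent.H646.TuplesM
open Pool.Agent.H646.Sv1M (tuple_selberg)
open Pool.Agent.H646.Sv2M (rankin_lower)

theorem product_bound2 :
    ∃ C > (0 : ℝ), ∀ y : ℕ, 2 ≤ y → ∀ d : Fin 2 → ℕ, StrictMono d →
      ∏ p ∈ PR 2 y, (1 - (rho d p : ℝ) / p) ≤ C / (Real.log y) ^ 2 * rat (d 1 - d 0) := by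
  classical
  set Ck : ℝ := ∏ p ∈ Nat.primesBelow 3, (1 - (p : ℝ)⁻¹)⁻¹ with hCk
  have hCk1 : 1 ≤ Ck := one_le_prod_real (fun p hp => one_le_inv_factor (Nat.prime_of_mem_primesBelow hp))
  refine ⟨Ck ^ 2, by positivity, ?_⟩
  intro y hy d hd
  have hlog : 0 < Real.log y := Real.log_pos (by exact_mod_cast hy)
  have hPR : ∀ p ∈ PR 2 y, p.Prime ∧ 2 < p ∧ p ≤ y := by
    intro p hp
    unfold PR at hp
    rw [Finset.mem_filter, Finset.mem_Ioc] at hp
    exact ⟨hp.2, hp.1.1, hp.1.2⟩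
  -- Mertens
  have hM : ∏ p ∈ PR 2 y, (1 - (p : ℝ)⁻¹) ≤ Ck / Real.log y := by
    have h1 : Real.log y ≤ (∏ p ∈ PR 2 y, (1 - (p : ℝ)⁻¹)⁻¹) * Ck := by
      have hsub : (y + 1).primesBelow ⊆ PR 2 y ∪ Nat.primesBelow 3 := by
        intro p hp
        rw [Nat.mem_primesBelow] at hp
        rw [Finset.mem_union]
        by_cases hpk : 2 < p
        · left
          unfold PR
          rw [Finset.mem_filter, Finset.mem_Ioc]
          exact ⟨⟨hpk, by omega⟩, hp.2⟩
        · right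
          rw [Nat.mem_primesBelow]
          exact ⟨by omega, hp.2⟩
      have hdis : Disjoint (PR 2 y) (Nat.primesBelow 3) := by
        rw [Finset.disjoint_left]
        intro p hp hp2
        rw [Nat.mem_primesBelow] at hp2
        have := (hPR p hp).2.1
        omega
      calc Real.log y ≤ ∏ p ∈ (y + 1).primesBelow, (1 - (p : ℝ)⁻¹)⁻¹ := log_le_euler y
        _ ≤ ∏ p ∈ PR 2 y ∪ Nat.primesBelow 3, (1 - (p : ℝ)⁻¹)⁻¹ := by
            apply prod_mono_set hsub
            intro p hp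
            rw [Finset.mem_union] at hp
            rcases hp with hp | hp
            · exact one_le_inv_factor (hPR p hp).1
            · exact one_le_inv_factor (Nat.prime_of_mem_primesBelow hp)
        _ = _ := by rw [Finset.prod_union hdis]
    have hpos : 0 < ∏ p ∈ PR 2 y, (1 - (p : ℝ)⁻¹) :=
      Finset.prod_pos (fun p hp => (prime_factor_pos (hPR p hp).1).1)
    rw [Finset.prod_inv_distrib] at h1
    rw [le_div_iff₀ hlog]
    have h2 := mul_le_mul_of_nonneg_left h1 hpos.le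
    calc _ ≤ _ := h2
      _ = Ck := by rw [← mul_assoc, mul_inv_cancel₀ hpos.ne', one_mul]
  have hdpos : 0 < d 1 - d 0 := by
    have : d 0 < d 1 := hd (by decide)
    omega
  -- factorwise
  have hfac : ∀ p ∈ PR 2 y, (1 - (rho d p : ℝ) / p) ≤ (1 - (p : ℝ)⁻¹) ^ 2 *
        (if p ∣ d 1 - d 0 then (1 - (p : ℝ)⁻¹)⁻¹ else 1) := by
    intro p hp
    obtain ⟨hpp, hkp, hpy⟩ := hPR p hp
    obtain ⟨f1, f2⟩ := prime_factor_pos hpp
    have hp0 : (0 : ℝ) < p := by exact_mod_cast hpp.pos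
    split_ifs with hdv
    · have h1 : (1 : ℝ) ≤ rho d p := by exact_mod_cast rho_pos (by norm_num) d p
      have h2 : (p : ℝ)⁻¹ ≤ (rho d p : ℝ) / p := by
        rw [div_eq_mul_inv]
        have : (0 : ℝ) ≤ (p : ℝ)⁻¹ := by positivity
        nlinarith
      have h3 : (1 - (p : ℝ)⁻¹) ^ 2 * (1 - (p : ℝ)⁻¹)⁻¹ = 1 - (p : ℝ)⁻¹ := by
        field_simp
      rw [h3]
      linarith
    · have hrho : rho d p = 2 := rho_good hd (by
        intro i j hij
        have hi : i = 0 := by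
          have := i.2; have := j.2
          apply Fin.ext
          have h : (i : ℕ) < (j : ℕ) := hij
          simp only [Fin.val_zero]
          omega
        have hj : j = 1 := by
          have := i.2; have := j.2
          apply Fin.ext
          have h : (i : ℕ) < (j : ℕ) := hij
          simp only [Fin.val_one]
          omega
        rw [hi, hj]
        exact hdv)
      rw [hrho, mul_one, div_eq_mul_inv]
      push_cast
      nlinarith [sq_nonneg ((p : ℝ)⁻¹)]
  have hnn : ∀ p ∈ PR 2 y, 0 ≤ (1 - (rho d p : ℝ) / p) := by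
    intro p hp
    obtain ⟨hpp, hkp, hpy⟩ := hPR p hp
    have hp0 : (0 : ℝ) < p := by exact_mod_cast hpp.pos
    have : (rho d p : ℝ) / p ≤ 1 := by
      rw [div_le_one hp0]
      exact_mod_cast (rho_le d p).trans hkp.le
    linarith
  calc ∏ p ∈ PR 2 y, (1 - (rho d p : ℝ) / p)
      ≤ ∏ p ∈ PR 2 y, ((1 - (p : ℝ)⁻¹) ^ 2 *
        (if p ∣ d 1 - d 0 then (1 - (p : ℝ)⁻¹)⁻¹ else 1)) := Finset.prod_le_prod hnn hfac
    _ = (∏ p ∈ PR 2 y, (1 - (p : ℝ)⁻¹)) ^ 2 *
        ∏ p ∈ PR 2 y, (if p ∣ d 1 - d 0 then (1 - (p : ℝ)⁻¹)⁻¹ else 1) := by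
        rw [Finset.prod_mul_distrib, Finset.prod_pow]
    _ ≤ (Ck / Real.log y) ^ 2 * rat (d 1 - d 0) := by
        apply mul_le_mul
        · apply pow_le_pow_left₀ _ hM
          exact Finset.prod_nonneg (fun p hp => (prime_factor_pos (hPR p hp).1).1.le)
        · rw [rat_eq hdpos, ← Finset.prod_filter]
          apply prod_mono_set
          · intro p hp
            rw [Finset.mem_filter] at hp
            exact Nat.mem_primeFactors.2 ⟨(hPR p hp.1).1, hp.2, hdpos.ne'⟩
          · intro p hp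
            exact one_le_inv_factor (Nat.prime_of_mem_primeFactors hp)
        · apply Finset.prod_nonneg
          intro p hp
          split_ifs
          · exact zero_le_one.trans (one_le_inv_factor (hPR p hp).1)
          · exact zero_le_one
        · positivity
    _ = _ := by rw [div_pow]

theorem pair_bound :
    ∃ C > (0 : ℝ), ∃ x₀ : ℕ, ∀ x : ℕ, x₀ ≤ x → ∀ u v : ℕ, u < v →
      (#{n ∈ Icc 1 x | (n + u).Prime ∧ (n + v).Prime} : ℝ) ≤
        C * x / (Real.log x) ^ 2 * rat (v - u) := by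
  obtain ⟨E, hE, y₀, hR⟩ := rankin_lower 2 (by norm_num)
  obtain ⟨C, hC, hP⟩ := product_bound2
  have hE' : (0 : ℝ) < 1 / (12 * E) := by
    have : (0 : ℝ) < E := by exact_mod_cast hE
    positivity
  have hu : Filter.Tendsto (fun x : ℕ => (x : ℝ) ^ (1 / (12 * E) : ℝ)) Filter.atTop Filter.atTop :=
    (tendsto_rpow_atTop hE').comp tendsto_natCast_atTop_atTop
  have hu1 := hu.eventually_ge_atTop (max (4 : ℝ) (y₀ + 2))
  obtain ⟨x₀, hx₀⟩ := Filter.eventually_atTop.mp
    ((ev_log 2).and (hu1.and (Filter.eventually_ge_atTop 3)))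
  refine ⟨1 + 2 * C * (24 * E) ^ 2, by positivity, x₀, ?_⟩
  intro x hx u' v' huv
  set d : Fin 2 → ℕ := ![u', v'] with hddef
  have hd : StrictMono d := by
    intro i j hij
    have hi : i = 0 := by
      have := i.2; have := j.2
      apply Fin.ext
      have h : (i : ℕ) < (j : ℕ) := hij
      simp only [Fin.val_zero]
      omega
    have hj : j = 1 := by
      have := i.2; have := j.2
      apply Fin.ext
      have h : (i : ℕ) < (j : ℕ) := hij
      simp only [Fin.val_one]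
      omega
    rw [hi, hj]
    simpa [hddef] using huv
  have hd0 : d 0 = u' := rfl
  have hd1 : d 1 = v' := rfl
  have hcard : #{n ∈ Icc 1 x | (n + u').Prime ∧ (n + v').Prime} = #{n ∈ Icc 1 x | ∀ j, (n + d j).Prime} := by
    congr 1
    apply Finset.filter_congr
    intro n _
    constructor
    · rintro ⟨h1, h2⟩ j
      fin_cases j
      · exact h1
      · exact h2
    · intro h
      exact ⟨h 0, h 1⟩
  rw [hcard]
  have hk : 1 ≤ 2 := by norm_num
  obtain ⟨h1, h2, h3⟩ := hx₀ x hx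
  set u : ℝ := (x : ℝ) ^ (1 / (12 * E) : ℝ) with hudef
  have hu4 : 4 ≤ u := le_trans (le_max_left _ _) h2
  have huy : (y₀ : ℝ) + 2 ≤ u := le_trans (le_max_right _ _) h2
  set y : ℕ := ⌊u⌋₊ with hy
  have hyu : (y : ℝ) ≤ u := Nat.floor_le (by linarith)
  have hyu2 : u / 2 ≤ y := by
    have := Nat.lt_floor_add_one u
    linarith
  have hy0 : y₀ ≤ y := Nat.le_floor (by linarith)
  have hy2 : 2 ≤ y := Nat.le_floor (by push_cast; linarith)
  have hx0 : (0 : ℝ) < x := by exact_mod_cast (by omega : 0 < x)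
  have hx1 : (1 : ℝ) ≤ x := by exact_mod_cast (by omega : 1 ≤ x)
  have hlogx : 0 < Real.log x := Real.log_pos (by exact_mod_cast (by omega : 1 < x))
  have hEr : (0 : ℝ) < E := by exact_mod_cast hE
  have hlogu : Real.log u = Real.log x / (12 * E) := by
    rw [hudef, Real.log_rpow hx0]; ring
  have hlogy : Real.log x / (24 * E) ≤ Real.log y := by
    have h4 : Real.log (u / 2) ≤ Real.log y := Real.log_le_log (by linarith) hyu2
    rw [Real.log_div (by linarith) (by norm_num)] at h4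
    have h5 : 2 * Real.log 2 ≤ Real.log u := by
      have : Real.log (2 ^ 2) ≤ Real.log u := Real.log_le_log (by norm_num) (by linarith)
      rw [Real.log_pow] at this
      simpa using this
    have h6 : Real.log x / (24 * E) = Real.log u / 2 := by rw [hlogu]; field_simp; ring
    linarith
  have hlogy0 : 0 < Real.log x / (24 * E) := by positivity
  -- z
  set z : ℕ := y ^ E with hz
  have hz1 : 1 ≤ z := Nat.one_le_pow _ _ (by omega)
  have hupow : u ^ (6 * E) = (x : ℝ) ^ (1 / 2 : ℝ) := by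
    rw [hudef, ← Real.rpow_natCast, ← Real.rpow_mul hx0.le]
    congr 1
    push_cast
    field_simp
    ring
  have hz6 : (z : ℝ) ^ 6 ≤ (x : ℝ) ^ (1 / 2 : ℝ) := by
    rw [hz, ← hupow]
    push_cast
    rw [← pow_mul, mul_comm E 6]
    exact pow_le_pow_left₀ (by positivity) hyu _
  have hyx : (y : ℝ) ≤ (x : ℝ) ^ (1 / 2 : ℝ) := by
    rw [← hupow]
    calc (y : ℝ) ≤ u := hyu
      _ = u ^ 1 := (pow_one u).symm
      _ ≤ u ^ (6 * E) := pow_le_pow_right₀ (by linarith) (by omega)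
  have hS := hR y hy0 (rho d) (fun p _ => rho_bounds hk d p) z le_rfl
  set S := ∑ l ∈ (∏ p ∈ PR 2 y, p).divisors with l ≤ z,
          ∏ p ∈ l.primeFactors, (rho d p : ℝ) / (p - rho d p) with hSdef
  have hprod : ∏ p ∈ PR 2 y, (1 - (rho d p : ℝ) / p)⁻¹ = (∏ p ∈ PR 2 y, (1 - (rho d p : ℝ) / p))⁻¹ :=
    Finset.prod_inv_distrib _
  set PP := ∏ p ∈ PR 2 y, (1 - (rho d p : ℝ) / p) with hPP
  have hPP0 : 0 < PP := by
    apply Finset.prod_pos
    intro p hp
    have h4 := (mem_filter.mp hp).1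
    rw [mem_Ioc] at h4
    have h5 := (rho_bounds hk d p).2
    have h6 : (0 : ℝ) < p := by exact_mod_cast (by omega : 0 < p)
    rw [sub_pos, div_lt_one h6]
    exact_mod_cast (by omega : rho d p < p)
  rw [hprod] at hS
  have hS0 : 0 < S := lt_of_lt_of_le (by positivity) hS
  have hinv : 1 / S ≤ 2 * PP := by
    rw [div_le_iff₀ hS0]
    have : 2 * PP * (1 / 2 * PP⁻¹) ≤ 2 * PP * S := mul_le_mul_of_nonneg_left hS (by positivity)
    have h4 : 2 * PP * (1 / 2 * PP⁻¹) = 1 := by field_simp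
    linarith
  have hPb := hP y hy2 d hd
  rw [← hPP] at hPb
  set R := rat (d 1 - d 0) with hRdef
  have hR1 : 1 ≤ R := rat_ge_one (by rw [hd0, hd1]; omega)
  have hmain := tuple_selberg 2 hk d hd.injective x y z hz1
  have hxS : (x : ℝ) / S ≤ x * (2 * (C / (Real.log x / (24 * E)) ^ 2 * R)) := by
    rw [div_eq_mul_one_div]
    apply mul_le_mul_of_nonneg_left _ hx0.le
    refine hinv.trans ?_
    apply mul_le_mul_of_nonneg_left _ (by norm_num)
    refine hPb.trans ?_
    apply mul_le_mul_of_nonneg_right _ (by linarith)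
    apply div_le_div_of_nonneg_left hC.le (by positivity)
    exact pow_le_pow_left₀ hlogy0.le hlogy _
  have hrest : (y : ℝ) + (z : ℝ) ^ 6 ≤ x / (Real.log x) ^ 2 * R := by
    have h4 : (y : ℝ) + (z : ℝ) ^ 6 ≤ 2 * (x : ℝ) ^ (1 / 2 : ℝ) := by linarith
    have h5 : 2 * (x : ℝ) ^ (1 / 2 : ℝ) ≤ x / (Real.log x) ^ 2 := by
      rw [le_div_iff₀ (by positivity)]
      have h6 : (x : ℝ) ^ (1 / 2 : ℝ) * (x : ℝ) ^ (1 / 2 : ℝ) = x := by
        rw [← Real.rpow_add hx0]; norm_num
      calc 2 * (x : ℝ) ^ (1 / 2 : ℝ) * Real.log x ^ 2 = (x : ℝ) ^ (1 / 2 : ℝ) * (2 * Real.log x ^ 2) := by ring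
        _ ≤ (x : ℝ) ^ (1 / 2 : ℝ) * (x : ℝ) ^ (1 / 2 : ℝ) := mul_le_mul_of_nonneg_left h1 (by positivity)
        _ = x := h6
    have h7 : 0 ≤ (x : ℝ) / (Real.log x) ^ 2 := by positivity
    calc _ ≤ _ := h4
      _ ≤ _ := h5
      _ = x / (Real.log x) ^ 2 * 1 := (mul_one _).symm
      _ ≤ _ := mul_le_mul_of_nonneg_left hR1 h7
  calc (#{n ∈ Icc 1 x | ∀ j, (n + d j).Prime} : ℝ) ≤ y + x / S + (z : ℝ) ^ 6 := hmain
    _ = (y + (z : ℝ) ^ 6) + x / S := by ring
    _ ≤ x / (Real.log x) ^ 2 * R + x * (2 * (C / (Real.log x / (24 * E)) ^ 2 * R)) :=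
        add_le_add hrest hxS
    _ = (1 + 2 * C * (24 * E) ^ 2) * x / (Real.log x) ^ 2 * R := by
        rw [div_pow]
        field_simp

end Pool.Agent.H262R2.UK
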