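import Mathlib
import Pool.Agent.H262R2.UK.Pair

/-! Elementary lemmas for the positive proportion theorem. -/

namespace Pool.Agent.H262R2.UK
open Finset
open Pool.Agent.H646 Pool.Agent.H646.Sv3M Pool.Agent.H646.TuplesM

theorem prod_le_card (S : Finset ℕ) : (∀ p ∈ S, 2 ≤ p) → ∏ p ∈ S, (1 - (p : ℝ)⁻¹)⁻¹ ≤ (#S : ℝ) + 1 := by
  induction S using Finset.induction_on_max with
  | empty => intro _; simp
  | insert m s hm ih =>
    intro hS
    have hms : m ∉ s := fun h => lt_irrefl _ (hm m h)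
    rw [Finset.prod_insert hms, Finset.card_insert_of_notMem hms]
    have ih' := ih (fun p hp => hS p (Finset.mem_insert_of_mem hp))
    have hm2 : 2 ≤ m := hS m (Finset.mem_insert_self _ _)
    have hcard : #s + 2 ≤ m := by
      have hsub : s ⊆ Finset.Ico 2 m := by
        intro p hp
        rw [Finset.mem_Ico]
        exact ⟨hS p (Finset.mem_insert_of_mem hp), hm p hp⟩
      have := Finset.card_le_card hsub
      rw [Nat.card_Ico] at this
      omega
    have hmr : (#s : ℝ) + 2 ≤ m := by exact_mod_cast hcard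
    have hs0 : (0 : ℝ) ≤ #s := Nat.cast_nonneg _
    have hm0 : (0 : ℝ) < m := by linarith
    have e1 : (1 - (m : ℝ)⁻¹)⁻¹ = m / (m - 1) := by
      rw [show (1 : ℝ) - (m : ℝ)⁻¹ = (m - 1) / m by field_simp, inv_div]
    have h1 : (1 - (m : ℝ)⁻¹)⁻¹ ≤ ((#s : ℝ) + 2) / (#s + 1) := by
      rw [e1, div_le_div_iff₀ (by linarith) (by linarith)]
      nlinarith
    have h0 : 0 ≤ (1 - (m : ℝ)⁻¹)⁻¹ := by
      rw [e1]
      apply div_nonneg hm0.le
      linarith
    have h2 : 0 ≤ ((#s : ℝ) + 2) / (#s + 1) := by positivity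
    have h3 : 0 ≤ ∏ p ∈ s, (1 - (p : ℝ)⁻¹)⁻¹ := by
      apply Finset.prod_nonneg
      intro p hp
      have : (2 : ℝ) ≤ p := by exact_mod_cast hS p (Finset.mem_insert_of_mem hp)
      have h4 : (p : ℝ)⁻¹ ≤ 1 := by
        apply inv_le_one_of_one_le₀; linarith
      apply inv_nonneg.2
      linarith
    calc (1 - (m : ℝ)⁻¹)⁻¹ * ∏ p ∈ s, (1 - (p : ℝ)⁻¹)⁻¹ ≤ ((#s : ℝ) + 2) / (#s + 1) * ((#s : ℝ) + 1) :=
          mul_le_mul h1 ih' h3 h2
      _ = ((#s + 1 : ℕ) : ℝ) + 1 := by
          push_cast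
          field_simp
          ring

theorem rat_le_log (n : ℕ) (hn : 1 ≤ n) : rat n ≤ Real.log n / Real.log 2 + 1 := by
  rw [rat_eq hn]
  refine (prod_le_card _ (fun p hp => (Nat.prime_of_mem_primeFactors hp).two_le)).trans ?_
  have h1 : 2 ^ #n.primeFactors ≤ n := by
    calc 2 ^ #n.primeFactors = ∏ _p ∈ n.primeFactors, 2 := by rw [Finset.prod_const]
      _ ≤ ∏ p ∈ n.primeFactors, p :=
          Finset.prod_le_prod' (fun p hp => (Nat.prime_of_mem_primeFactors hp).two_le)
      _ ≤ n := Nat.le_of_dvd hn (Nat.prod_primeFactors_dvd n)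
  have h2 : (#n.primeFactors : ℝ) * Real.log 2 ≤ Real.log n := by
    rw [← Real.log_pow]
    apply Real.log_le_log (by positivity)
    exact_mod_cast h1
  have hl : 0 < Real.log 2 := Real.log_pos (by norm_num)
  rw [← le_div_iff₀ hl] at h2
  linarith

theorem rat_pos {n : ℕ} (hn : 1 ≤ n) : 0 < rat n := lt_of_lt_of_le one_pos (rat_ge_one hn)

theorem rat_mul_le {m n : ℕ} (hm : 1 ≤ m) (hn : 1 ≤ n) : rat (m * n) ≤ rat m * rat n := by
  unfold rat
  have h1 : 0 < m.totient := Nat.totient_pos.2 hm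
  have h2 : 0 < n.totient := Nat.totient_pos.2 hn
  have h3 := Nat.totient_super_multiplicative m n
  rw [div_mul_div_comm]
  push_cast
  apply div_le_div_of_nonneg_left (by positivity) (by positivity)
  exact_mod_cast h3

theorem bt : ∃ C > (0 : ℝ), ∃ x₀ : ℕ, ∀ x : ℕ, x₀ ≤ x → ∀ u : ℕ,
    (#{n ∈ Icc 1 x | (n + u).Prime} : ℝ) ≤ C * x / Real.log x := by
  obtain ⟨C, hC, A, x₀, h⟩ := tuple_bound 1 le_rfl
  refine ⟨C, hC, x₀, fun x hx u => ?_⟩
  have h1 := h x hx (fun _ => u) (Subsingleton.strictMono _)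
  have h2 : (univ : Finset (Fin 1 × Fin 1)).filter (fun q => q.1 < q.2) = ∅ := by
    apply Finset.filter_eq_empty_iff.2
    intro q _
    have : q.1 = q.2 := Subsingleton.elim _ _
    rw [this]
    exact lt_irrefl _
  rw [h2, Finset.prod_empty, mul_one, pow_one] at h1
  refine le_trans (le_of_eq ?_) h1
  congr 2
  apply Finset.filter_congr
  intro n _
  constructor
  · intro h3 _; exact h3
  · intro h3; exact h3 0

/-- Paley-Zygmund in finite form -/
theorem count_large {α : Type*} (Ω : Finset α) (R : α → ℝ) (S1 S2 : ℝ)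
    (h1 : S1 ≤ ∑ b ∈ Ω, R b) (h2 : ∑ b ∈ Ω, R b ^ 2 ≤ S2) (hS1 : 0 < S1) (hS2 : 0 < S2) (hΩ : 0 < #Ω) :
    S1 ^ 2 / (4 * S2) ≤ (#(Ω.filter (fun b => S1 / (2 * #Ω) ≤ R b)) : ℝ) := by
  classical
  set G := Ω.filter (fun b => S1 / (2 * #Ω) ≤ R b) with hG
  have hΩr : (0 : ℝ) < #Ω := by exact_mod_cast hΩ
  have e1 := Finset.sum_filter_add_sum_filter_not Ω (fun b => S1 / (2 * #Ω) ≤ R b) R
  have e2 : ∑ b ∈ Ω.filter (fun b => ¬ S1 / (2 * #Ω) ≤ R b), R b ≤ S1 / 2 := by
    calc ∑ b ∈ Ω.filter (fun b => ¬ S1 / (2 * #Ω) ≤ R b), R b ≤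
        ∑ b ∈ Ω.filter (fun b => ¬ S1 / (2 * #Ω) ≤ R b), S1 / (2 * #Ω) := by
          apply Finset.sum_le_sum
          intro b hb
          rw [Finset.mem_filter, not_le] at hb
          exact hb.2.le
      _ = (#(Ω.filter (fun b => ¬ S1 / (2 * #Ω) ≤ R b)) : ℝ) * (S1 / (2 * #Ω)) := by
          rw [Finset.sum_const, nsmul_eq_mul]
      _ ≤ (#Ω : ℝ) * (S1 / (2 * #Ω)) := by
          apply mul_le_mul_of_nonneg_right _ (by positivity)
          exact_mod_cast Finset.card_filter_le _ _
      _ = S1 / 2 := by field_simp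
  have e3 : S1 / 2 ≤ ∑ b ∈ G, R b := by linarith
  have e4 : (∑ b ∈ G, R b) ^ 2 ≤ (#G : ℝ) * ∑ b ∈ G, R b ^ 2 := by
    have := sq_sum_le_card_mul_sum_sq (s := G) (f := R)
    exact this
  have e5 : ∑ b ∈ G, R b ^ 2 ≤ S2 := by
    refine le_trans ?_ h2
    apply Finset.sum_le_sum_of_subset_of_nonneg (Finset.filter_subset _ _)
    intro b _ _
    positivity
  rw [div_le_iff₀ (by positivity)]
  have e6 : (S1 / 2) ^ 2 ≤ (#G : ℝ) * S2 := by
    calc (S1 / 2) ^ 2 ≤ (∑ b ∈ G, R b) ^ 2 := pow_le_pow_left₀ (by positivity) e3 2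
      _ ≤ _ := e4
      _ ≤ _ := mul_le_mul_of_nonneg_left e5 (Nat.cast_nonneg _)
  nlinarith

/-- functions in a box all of whose values have a property -/
theorem card_box {α : Type*} [DecidableEq α] (k : ℕ) (B : Finset α) (Q : α → Prop) [DecidablePred Q] :
    #((Fintype.piFinset (fun _ : Fin k => B)).filter (fun b => ∀ i, Q (b i))) = #(B.filter Q) ^ k := by
  have : (Fintype.piFinset (fun _ : Fin k => B)).filter (fun b => ∀ i, Q (b i)) =
      Fintype.piFinset (fun _ : Fin k => B.filter Q) := by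
    ext b
    simp only [Finset.mem_filter, Fintype.mem_piFinset]
    constructor
    · rintro ⟨h1, h2⟩ i
      exact ⟨h1 i, h2 i⟩
    · intro h
      exact ⟨fun i => (h i).1, fun i => (h i).2⟩
  rw [this, Fintype.card_piFinset, Finset.prod_const, Finset.card_univ, Fintype.card_fin]

/-- few non-injective functions -/
theorem card_noninj {α : Type*} [DecidableEq α] (k : ℕ) (B : Finset α) (hB : 0 < #B) :
    #((Fintype.piFinset (fun _ : Fin k => B)).filter (fun b => ¬ Function.Injective b)) ≤ k ^ 2 * #B ^ (k - 1) := by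
  classical
  obtain ⟨b0, hb0⟩ := Finset.card_pos.1 hB
  have hsub : (Fintype.piFinset (fun _ : Fin k => B)).filter (fun b => ¬ Function.Injective b) ⊆
      ((univ : Finset (Fin k × Fin k)).filter (fun q => q.1 ≠ q.2)).biUnion
        (fun q => (Fintype.piFinset (fun _ : Fin k => B)).filter (fun b => b q.1 = b q.2)) := by
    intro b hb
    rw [Finset.mem_filter] at hb
    obtain ⟨hb1, hb2⟩ := hb
    unfold Function.Injective at hb2
    push Not at hb2
    obtain ⟨i, j, hij, hne⟩ := hb2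
    rw [Finset.mem_biUnion]
    refine ⟨(i, j), ?_, ?_⟩
    · rw [Finset.mem_filter]; exact ⟨Finset.mem_univ _, hne⟩
    · rw [Finset.mem_filter]; exact ⟨hb1, hij⟩
  refine (Finset.card_le_card hsub).trans ?_
  refine Finset.card_biUnion_le.trans ?_
  have hone : ∀ q ∈ (univ : Finset (Fin k × Fin k)).filter (fun q => q.1 ≠ q.2),
      #((Fintype.piFinset (fun _ : Fin k => B)).filter (fun b => b q.1 = b q.2)) ≤ #B ^ (k - 1) := by
    intro q hq
    rw [Finset.mem_filter] at hq
    have hcard : #(Fintype.piFinset (fun j : Fin k => if j = q.1 then ({b0} : Finset α) else B)) = #B ^ (k - 1) := by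
      rw [Fintype.card_piFinset]
      rw [← Finset.mul_prod_erase _ _ (Finset.mem_univ q.1)]
      rw [if_pos rfl, Finset.card_singleton, one_mul]
      have : ∀ j ∈ (univ : Finset (Fin k)).erase q.1, #(if j = q.1 then ({b0} : Finset α) else B) = #B := by
        intro j hj
        rw [if_neg (Finset.ne_of_mem_erase hj)]
      rw [Finset.prod_congr rfl this, Finset.prod_const, Finset.card_erase_of_mem (Finset.mem_univ _),
        Finset.card_univ, Fintype.card_fin]
    rw [← hcard]
    apply Finset.card_le_card_of_injOn (fun b => Function.update b q.1 b0)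
    · intro b hb
      rw [Finset.mem_coe, Finset.mem_filter, Fintype.mem_piFinset] at hb
      rw [Finset.mem_coe, Fintype.mem_piFinset]
      intro j
      by_cases hj : j = q.1
      · subst hj; simp
      · simp only [Function.update_of_ne hj, if_neg hj]
        exact hb.1 j
    · intro b hb b' hb' h
      rw [Finset.mem_coe, Finset.mem_filter] at hb hb'
      have h' : Function.update b q.1 b0 = Function.update b' q.1 b0 := h
      have h2 : ∀ j, j ≠ q.1 → b j = b' j := by
        intro j hj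
        have := congrFun h' j
        rwa [Function.update_of_ne hj, Function.update_of_ne hj] at this
      funext j
      by_cases hj : j = q.1
      · rw [hj, hb.2, hb'.2]
        exact h2 q.2 (Ne.symm hq.2)
      · exact h2 j hj
  refine (Finset.sum_le_sum hone).trans ?_
  rw [Finset.sum_const, smul_eq_mul]
  apply Nat.mul_le_mul_right
  refine (Finset.card_filter_le _ _).trans ?_
  rw [Finset.card_univ, Fintype.card_prod, Fintype.card_fin, sq]

end Pool.Agent.H262R2.UK
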