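import Mathlib
import Pool.Agent.H262R2.UK.Basic

/-! First and second moments of the number of common prime values. -/

namespace Pool.Agent.H262R2.UK
open Finset
open Pool.Agent.H646 Pool.Agent.H646.Sv3M Pool.Agent.H646.TuplesM
open Pool.Agent.H646.MomentM (rat_moment)

/-- reduced residues -/
def BB (a : ℕ) : Finset ℕ := (Ico 1 a).filter (fun b => a.Coprime b)

theorem card_BB (a : ℕ) (ha : 2 ≤ a) : #(BB a) = a.totient := by
  rw [Nat.totient_eq_card_coprime]
  congr 1
  unfold BB
  ext b
  simp only [Finset.mem_filter, Finset.mem_Ico, Finset.mem_range]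
  constructor
  · rintro ⟨⟨_, h2⟩, h3⟩; exact ⟨h2, h3⟩
  · rintro ⟨h2, h3⟩
    refine ⟨⟨?_, h2⟩, h3⟩
    by_contra hb
    have hb0 : b = 0 := by omega
    rw [hb0, Nat.coprime_zero_right] at h3
    omega

/-- number of common prime values -/
def RR {k : ℕ} (a N : ℕ) (b : Fin k → ℕ) : ℕ := #{n ∈ Icc 1 N | ∀ i, (a * n + b i).Prime}

theorem sum_R (k a N : ℕ) : ∑ b ∈ Fintype.piFinset (fun _ : Fin k => BB a), RR a N b =
    ∑ n ∈ Icc 1 N, #((BB a).filter (fun x => (a * n + x).Prime)) ^ k := by
  unfold RR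
  simp_rw [Finset.card_filter _ (Icc 1 N)]
  rw [Finset.sum_comm]
  refine Finset.sum_congr rfl fun n _ => ?_
  rw [← card_box, Finset.card_filter]

theorem sum_R_sq (k a N : ℕ) : ∑ b ∈ Fintype.piFinset (fun _ : Fin k => BB a), RR a N b ^ 2 =
    ∑ n ∈ Icc 1 N, ∑ m ∈ Icc 1 N, #((BB a).filter (fun x => (a * n + x).Prime ∧ (a * m + x).Prime)) ^ k := by
  have h : ∀ b : Fin k → ℕ, RR a N b ^ 2 = ∑ n ∈ Icc 1 N, ∑ m ∈ Icc 1 N,
      if ∀ i, ((a * n + b i).Prime ∧ (a * m + b i).Prime) then 1 else 0 := by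
    intro b
    unfold RR
    rw [Finset.card_filter, sq, Finset.sum_mul_sum]
    refine Finset.sum_congr rfl fun n _ => Finset.sum_congr rfl fun m _ => ?_
    by_cases h1 : ∀ i, (a * n + b i).Prime
    · by_cases h2 : ∀ i, (a * m + b i).Prime
      · rw [if_pos h1, if_pos h2, if_pos (fun i => ⟨h1 i, h2 i⟩), mul_one]
      · rw [if_pos h1, if_neg h2, if_neg (fun h => h2 fun i => (h i).2), mul_zero]
    · rw [if_neg h1, zero_mul, if_neg (fun h => h1 fun i => (h i).1)]
  simp_rw [h]
  rw [Finset.sum_comm]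
  refine Finset.sum_congr rfl fun n _ => ?_
  rw [Finset.sum_comm]
  refine Finset.sum_congr rfl fun m _ => ?_
  rw [← card_box, Finset.card_filter]

theorem primes_le (a N : ℕ) (ha : 2 ≤ a) :
    Nat.primeCounting (a * (N + 1)) ≤ Nat.primeCounting a +
      ∑ n ∈ Icc 1 N, #((BB a).filter (fun x => (a * n + x).Prime)) := by
  have e1 : ∑ n ∈ Icc 1 N, #((BB a).filter (fun x => (a * n + x).Prime)) =
      #((Icc 1 N ×ˢ BB a).filter (fun q => (a * q.1 + q.2).Prime)) := by
    rw [Finset.card_filter, Finset.sum_product]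
    refine Finset.sum_congr rfl fun n _ => ?_
    rw [Finset.card_filter]
  rw [e1]
  unfold Nat.primeCounting Nat.primeCounting'
  rw [Nat.count_eq_card_filter_range, Nat.count_eq_card_filter_range]
  have hsub : (range (a * (N + 1) + 1)).filter Nat.Prime ⊆
      (range (a + 1)).filter Nat.Prime ∪ ((Ioo a (a * (N + 1))).filter Nat.Prime) := by
    intro p hp
    rw [Finset.mem_filter, Finset.mem_range] at hp
    rw [Finset.mem_union, Finset.mem_filter, Finset.mem_range, Finset.mem_filter, Finset.mem_Ioo]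
    by_cases h : p < a + 1
    · exact Or.inl ⟨h, hp.2⟩
    · right
      refine ⟨⟨by omega, ?_⟩, hp.2⟩
      rcases Nat.lt_or_ge p (a * (N + 1)) with h1 | h1
      · exact h1
      · exfalso
        have h2 : p = a * (N + 1) := by omega
        have h3 : a ∣ p := by rw [h2]; exact dvd_mul_right _ _
        rcases (Nat.dvd_prime hp.2).1 h3 with h4 | h4
        · omega
        · omega
  refine (Finset.card_le_card hsub).trans ((Finset.card_union_le _ _).trans ?_)
  apply Nat.add_le_add_left
  apply Finset.card_le_card_of_injOn (fun p => (p / a, p % a))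
  · intro p hp
    rw [Finset.mem_coe, Finset.mem_filter, Finset.mem_Ioo] at hp
    obtain ⟨⟨h1, h2⟩, hp⟩ := hp
    rw [Finset.mem_coe, Finset.mem_filter, Finset.mem_product, Finset.mem_Icc]
    have hapos : 0 < a := by omega
    have hdiv : a * (p / a) + p % a = p := Nat.div_add_mod p a
    have hcop : a.Coprime p := by
      rw [Nat.coprime_comm, Nat.Prime.coprime_iff_not_dvd hp]
      intro h
      have := Nat.le_of_dvd hapos h
      omega
    refine ⟨⟨⟨?_, ?_⟩, ?_⟩, ?_⟩
    · exact Nat.div_pos h1.le hapos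
    · have h9 : p / a < N + 1 := Nat.div_lt_of_lt_mul h2
      exact Nat.lt_succ_iff.1 h9
    · unfold BB
      rw [Finset.mem_filter, Finset.mem_Ico]
      have hc2 : a.Coprime (p % a) := by
        have h8 : a.gcd (p % a) = p.gcd a := by
          rw [Nat.gcd_comm a, ← Nat.gcd_rec]
          exact Nat.gcd_comm a p
        unfold Nat.Coprime
        rw [h8, Nat.gcd_comm]
        exact hcop
      refine ⟨⟨?_, Nat.mod_lt _ hapos⟩, hc2⟩
      show 1 ≤ p % a
      by_contra h0
      have h00 : p % a = 0 := by omega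
      rw [h00, Nat.coprime_zero_right] at hc2
      omega
    · simp only
      rw [hdiv]; exact hp
  · intro p _ p' _ h
    have h1 : p / a = p' / a := congrArg Prod.fst h
    have h2 : p % a = p' % a := congrArg Prod.snd h
    rw [← Nat.div_add_mod p a, ← Nat.div_add_mod p' a, h1, h2]

end Pool.Agent.H262R2.UK
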