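import Mathlib
import Pool.Agent.H262R2.UK.Mom

/-! Bounds for the moments. -/

namespace Pool.Agent.H262R2.UK
open Finset
open Pool.Agent.H646 Pool.Agent.H646.Sv3M Pool.Agent.H646.TuplesM
open Pool.Agent.H646.MomentM (rat_moment)

/-- Chebyshev -/
theorem cheb (A : ℕ) : ∃ c : ℝ, 0 < c ∧ ∃ a₀ N₀ : ℕ, ∀ a : ℕ, a₀ ≤ a → ∀ N : ℕ, N₀ ≤ N → N ≤ a ^ A →
    c * N * (a / Real.log a) ≤ ((∑ n ∈ Icc 1 N, #((BB a).filter (fun x => (a * n + x).Prime)) : ℕ) : ℝ) := by
  obtain ⟨C, hC, x₀, hbt⟩ := bt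
  have hl2 := Real.log_two_gt_d9
  refine ⟨1 / (8 * (A + 2)), by positivity, max x₀ 100, ⌈8 * (A + 2) * C⌉₊ + 1, ?_⟩
  intro a ha N hN hNA
  have hax : x₀ ≤ a := (le_max_left _ _).trans ha
  have ha100 : 100 ≤ a := (le_max_right _ _).trans ha
  have har : (100 : ℝ) ≤ a := by exact_mod_cast ha100
  have hN1 : 1 ≤ N := by omega
  have hNr : (1 : ℝ) ≤ N := by exact_mod_cast hN1
  have hNC : 8 * ((A : ℝ) + 2) * C ≤ N := by
    have h1 : (⌈8 * ((A : ℝ) + 2) * C⌉₊ : ℝ) ≤ N := by exact_mod_cast (by omega : ⌈8 * ((A : ℝ) + 2) * C⌉₊ ≤ N)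
    exact (Nat.le_ceil _).trans h1
  have hlog : 0 < Real.log a := Real.log_pos (by linarith)
  have h1 := primes_le a N (by omega)
  have h2 : (Nat.primeCounting a : ℝ) ≤ C * a / Real.log a := by
    refine le_trans (le_of_eq ?_) (hbt a hax 0)
    norm_cast
    unfold Nat.primeCounting Nat.primeCounting'
    rw [Nat.count_eq_card_filter_range]
    congr 1
    ext p
    simp only [Finset.mem_filter, Finset.mem_range, Finset.mem_Icc, add_zero]
    constructor
    · rintro ⟨h3, h4⟩; exact ⟨⟨h4.one_lt.le, by omega⟩, h4⟩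
    · rintro ⟨⟨_, h3⟩, h4⟩; exact ⟨by omega, h4⟩
  set M := a * (N + 1) with hM
  have hMr : (M : ℝ) = a * (N + 1) := by rw [hM]; push_cast; ring
  have hM200 : (200 : ℝ) ≤ M := by rw [hMr]; nlinarith
  have h3 := Chebyshev.pi_ge M
  have hlogM : 0 < Real.log M := Real.log_pos (by linarith)
  have h4 : Real.log (M + 1) ≤ M / 4 := by
    have h5 : Real.log ((M : ℝ) + 1) ≤ 2 * Real.sqrt (M + 1) := by
      have h6 : Real.log ((M : ℝ) + 1) = 2 * Real.log (Real.sqrt (M + 1)) := by
        rw [Real.log_sqrt (by positivity)]; ring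
      rw [h6]
      have h7 : Real.log (Real.sqrt ((M : ℝ) + 1)) ≤ Real.sqrt (M + 1) := Real.log_le_self (Real.sqrt_nonneg _)
      linarith
    have h6 : 2 * Real.sqrt ((M : ℝ) + 1) ≤ M / 4 := by
      have h7 : Real.sqrt ((M : ℝ) + 1) ≤ M / 8 := by
        rw [Real.sqrt_le_left (by positivity)]
        nlinarith
      linarith
    linarith
  have h5 : Real.log M ≤ (A + 2) * Real.log a := by
    have h6 : (M : ℝ) ≤ (a : ℝ) ^ (A + 2) := by
      have h7 : N + 1 ≤ a ^ (A + 1) := by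
        have h8 : 1 ≤ a ^ A := Nat.one_le_pow _ _ (by omega)
        calc N + 1 ≤ a ^ A + a ^ A := by omega
          _ = 2 * a ^ A := by ring
          _ ≤ a * a ^ A := Nat.mul_le_mul_right _ (by omega)
          _ = a ^ (A + 1) := by ring
      have h8 : M ≤ a ^ (A + 2) := by
        calc M ≤ a * a ^ (A + 1) := Nat.mul_le_mul_left _ h7
          _ = a ^ (A + 2) := by ring
      exact_mod_cast h8
    calc Real.log M ≤ Real.log ((a : ℝ) ^ (A + 2)) := Real.log_le_log (by linarith) h6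
      _ = _ := by rw [Real.log_pow]; push_cast; ring
  have h6 : (M : ℝ) / (4 * ((A + 2) * Real.log a)) ≤ Nat.primeCounting M := by
    refine le_trans ?_ h3
    calc (M : ℝ) / (4 * ((A + 2) * Real.log a)) ≤ M / (4 * Real.log M) := by
          apply div_le_div_of_nonneg_left (by linarith) (by positivity)
          linarith
      _ = (M / 4) / Real.log M := by rw [div_div]
      _ ≤ _ := by
          apply div_le_div_of_nonneg_right _ hlogM.le
          nlinarith
  have h7 : (Nat.primeCounting M : ℝ) ≤ Nat.primeCounting a +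
      ((∑ n ∈ Icc 1 N, #((BB a).filter (fun x => (a * n + x).Prime)) : ℕ) : ℝ) := by exact_mod_cast h1
  have h8 : (M : ℝ) / (4 * ((A + 2) * Real.log a)) = (2 * (N + 1)) * (1 / (8 * (A + 2)) * (a / Real.log a)) := by
    rw [hMr]; field_simp; ring
  have h9 : C * a / Real.log a = C * (8 * (A + 2)) * (1 / (8 * (A + 2)) * (a / Real.log a)) := by
    field_simp
  set t := 1 / (8 * ((A : ℝ) + 2)) * (a / Real.log a) with ht
  have ht0 : 0 < t := by positivity
  have h10 : 1 / (8 * ((A : ℝ) + 2)) * N * (a / Real.log a) = N * t := by rw [ht]; ring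
  rw [h10]
  rw [h8] at h6
  rw [h9] at h2
  nlinarith

/-- sums over pairs -/
theorem pair_sum (g : ℕ → ℝ) (hg : ∀ m, 0 ≤ g m) (N n : ℕ) (hn : n ∈ Icc 1 N) (P : ℕ → ℝ) (D : ℝ)
    (h0 : P n ≤ D) (h1 : ∀ m ∈ Icc 1 N, n < m → P m ≤ g (m - n)) (h2 : ∀ m ∈ Icc 1 N, m < n → P m ≤ g (n - m)) :
    ∑ m ∈ Icc 1 N, P m ≤ D + 2 * ∑ m ∈ Icc 1 N, g m := by
  classical
  have e1 : ∑ m ∈ Icc 1 N, P m = P n + (∑ m ∈ (Icc 1 N).filter (fun m => n < m), P m +
      ∑ m ∈ (Icc 1 N).filter (fun m => m < n), P m) := by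
    rw [← Finset.add_sum_erase _ _ hn]
    congr 1
    rw [← Finset.sum_union]
    · apply Finset.sum_congr _ (fun _ _ => rfl)
      ext m
      simp only [Finset.mem_erase, Finset.mem_union, Finset.mem_filter]
      constructor
      · rintro ⟨h3, h4⟩
        rcases Nat.lt_or_gt_of_ne h3 with h5 | h5
        · exact Or.inr ⟨h4, h5⟩
        · exact Or.inl ⟨h4, h5⟩
      · rintro (⟨h3, h4⟩ | ⟨h3, h4⟩)
        · exact ⟨by omega, h3⟩
        · exact ⟨by omega, h3⟩
    · rw [Finset.disjoint_left]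
      intro m hm hm'
      rw [Finset.mem_filter] at hm hm'
      omega
  have e2 : ∑ m ∈ (Icc 1 N).filter (fun m => n < m), P m ≤ ∑ m ∈ Icc 1 N, g m := by
    refine (Finset.sum_le_sum (fun m hm => h1 m (Finset.mem_filter.1 hm).1 (Finset.mem_filter.1 hm).2)).trans ?_
    apply sum_le_of_inj _ (fun m => m - n) _ g hg
    · intro m hm
      rw [Finset.mem_filter, Finset.mem_Icc] at hm
      rw [Finset.mem_Icc]
      omega
    · intro m hm m' hm' h
      rw [Finset.mem_filter] at hm hm'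
      omega
  have e3 : ∑ m ∈ (Icc 1 N).filter (fun m => m < n), P m ≤ ∑ m ∈ Icc 1 N, g m := by
    refine (Finset.sum_le_sum (fun m hm => h2 m (Finset.mem_filter.1 hm).1 (Finset.mem_filter.1 hm).2)).trans ?_
    apply sum_le_of_inj _ (fun m => n - m) _ g hg
    · intro m hm
      rw [Finset.mem_filter, Finset.mem_Icc] at hm
      rw [Finset.mem_Icc] at hn ⊢
      omega
    · intro m hm m' hm' h
      rw [Finset.mem_filter] at hm hm'
      omega
  linarith

/-- the second moment -/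
theorem second (k : ℕ) : ∃ C : ℝ, 0 < C ∧ ∃ a₀ : ℕ, ∀ a : ℕ, a₀ ≤ a → ∀ N : ℕ,
    ((∑ b ∈ Fintype.piFinset (fun _ : Fin k => BB a), RR a N b ^ 2 : ℕ) : ℝ) ≤
      C * (N * (a / Real.log a) ^ k + N ^ 2 * (a / Real.log a * (a / (a.totient * Real.log a))) ^ k) := by
  obtain ⟨C1, hC1, x1, hbt⟩ := bt
  obtain ⟨C2, hC2, x2, hpb⟩ := pair_bound
  obtain ⟨C4, hC4, hmom⟩ := rat_moment k
  refine ⟨C1 ^ k + 2 * C4 * C2 ^ k, by positivity, max (max x1 x2) 2, ?_⟩
  intro a ha N
  have hax1 : x1 ≤ a := ((le_max_left _ _).trans (le_max_left _ _)).trans ha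
  have hax2 : x2 ≤ a := ((le_max_right _ _).trans (le_max_left _ _)).trans ha
  have ha2 : 2 ≤ a := (le_max_right _ _).trans ha
  have har : (2 : ℝ) ≤ a := by exact_mod_cast ha2
  have hlog : 0 < Real.log a := Real.log_pos (by linarith)
  have hφ : (0 : ℝ) < a.totient := by exact_mod_cast Nat.totient_pos.2 (by omega)
  set q := (a : ℝ) / Real.log a with hq
  have hq0 : 0 < q := by positivity
  set w := q * (a / (a.totient * Real.log a)) with hw
  have hw0 : 0 < w := by positivity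
  have hBsub : ∀ Q : ℕ → Prop, ∀ [DecidablePred Q], #((BB a).filter Q) ≤ #((Icc 1 a).filter Q) := by
    intro Q _
    apply Finset.card_le_card
    apply Finset.filter_subset_filter
    intro x hx
    unfold BB at hx
    rw [Finset.mem_filter, Finset.mem_Ico] at hx
    rw [Finset.mem_Icc]
    omega
  have hdiag : ∀ n : ℕ, (#((BB a).filter (fun x => (a * n + x).Prime ∧ (a * n + x).Prime)) : ℝ) ≤ C1 * q := by
    intro n
    have h1 : #((BB a).filter (fun x => (a * n + x).Prime ∧ (a * n + x).Prime)) ≤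
        #((Icc 1 a).filter (fun x => (x + a * n).Prime)) := by
      refine (hBsub _).trans (le_of_eq ?_)
      congr 1
      apply Finset.filter_congr
      intro x _
      rw [and_self, add_comm]
    have h2 := hbt a hax1 (a * n)
    calc (#((BB a).filter (fun x => (a * n + x).Prime ∧ (a * n + x).Prime)) : ℝ) ≤ _ := by exact_mod_cast h1
      _ ≤ _ := h2
      _ = C1 * q := by rw [hq]; ring
  have hoff : ∀ n m : ℕ, n < m → (#((BB a).filter (fun x => (a * n + x).Prime ∧ (a * m + x).Prime)) : ℝ) ≤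
      C2 * w * rat (m - n) := by
    intro n m hnm
    have h1 : #((BB a).filter (fun x => (a * n + x).Prime ∧ (a * m + x).Prime)) ≤
        #((Icc 1 a).filter (fun x => (x + a * n).Prime ∧ (x + a * m).Prime)) := by
      refine (hBsub _).trans (le_of_eq ?_)
      congr 1
      apply Finset.filter_congr
      intro x _
      rw [add_comm (a * n), add_comm (a * m)]
    have h2 := hpb a hax2 (a * n) (a * m) (Nat.mul_lt_mul_of_pos_left hnm (by omega))
    have h3 : a * m - a * n = a * (m - n) := by rw [Nat.mul_sub]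
    rw [h3] at h2
    have h4 := rat_mul_le (m := a) (n := m - n) (by omega) (by omega)
    calc (#((BB a).filter (fun x => (a * n + x).Prime ∧ (a * m + x).Prime)) : ℝ) ≤ _ := by exact_mod_cast h1
      _ ≤ _ := h2
      _ ≤ C2 * a / Real.log a ^ 2 * (rat a * rat (m - n)) := by
          apply mul_le_mul_of_nonneg_left h4 (by positivity)
      _ = C2 * w * rat (m - n) := by
          rw [hw, hq]
          unfold rat
          field_simp
  have hsym : ∀ n m : ℕ, #((BB a).filter (fun x => (a * n + x).Prime ∧ (a * m + x).Prime)) =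
      #((BB a).filter (fun x => (a * m + x).Prime ∧ (a * n + x).Prime)) := by
    intro n m
    congr 1
    apply Finset.filter_congr
    intro x _
    exact and_comm
  rw [sum_R_sq]
  push_cast
  have hrow : ∀ n ∈ Icc 1 N, ∑ m ∈ Icc 1 N,
      (#((BB a).filter (fun x => (a * n + x).Prime ∧ (a * m + x).Prime)) : ℝ) ^ k ≤
      (C1 * q) ^ k + 2 * ((C2 * w) ^ k * (C4 * N)) := by
    intro n hn
    have h1 := pair_sum (fun m => (C2 * w) ^ k * rat m ^ k) (fun m => by
        have := rat_nonneg m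
        positivity) N n hn
      (fun m => (#((BB a).filter (fun x => (a * n + x).Prime ∧ (a * m + x).Prime)) : ℝ) ^ k) ((C1 * q) ^ k)
      (pow_le_pow_left₀ (by positivity) (hdiag n) k)
      (fun m _ hnm => by
        rw [← mul_pow]
        exact pow_le_pow_left₀ (by positivity) (hoff n m hnm) k)
      (fun m _ hnm => by
        rw [← mul_pow, hsym n m]
        exact pow_le_pow_left₀ (by positivity) (hoff m n hnm) k)
    refine h1.trans ?_
    rw [← Finset.mul_sum]
    have h2 : (C2 * w) ^ k * ∑ m ∈ Icc 1 N, rat m ^ k ≤ (C2 * w) ^ k * (C4 * N) :=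
      mul_le_mul_of_nonneg_left (hmom N) (by positivity)
    linarith
  refine (Finset.sum_le_sum hrow).trans ?_
  rw [Finset.sum_const, Nat.card_Icc, Nat.add_sub_cancel, nsmul_eq_mul, mul_pow, mul_pow]
  have hN0 : (0 : ℝ) ≤ N := Nat.cast_nonneg N
  have e1 : (N : ℝ) * (C1 ^ k * q ^ k + 2 * (C2 ^ k * w ^ k * (C4 * N))) =
      C1 ^ k * (N * q ^ k) + 2 * C4 * C2 ^ k * (N ^ 2 * w ^ k) := by ring
  rw [e1]
  have h5 : 0 ≤ N * q ^ k := by positivity
  have h6 : 0 ≤ (N : ℝ) ^ 2 * w ^ k := by positivity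
  have h7 : 0 ≤ C1 ^ k := by positivity
  have h8 : 0 ≤ 2 * C4 * C2 ^ k := by positivity
  nlinarith

end Pool.Agent.H262R2.UK
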