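import Mathlib
import Pool.Agent.H262R2.UK.Bd

/-! A positive proportion of the tuples. -/

namespace Pool.Agent.H262R2.UK
open Finset
open Pool.Agent.H646 Pool.Agent.H646.Sv3M Pool.Agent.H646.TuplesM

theorem phi_facts (a : ℕ) (ha : 10 ≤ a) : (1 : ℝ) / 2 ≤ a.totient * Real.log a / a ∧
    Real.sqrt a / 4 ≤ a.totient := by
  have har : (10 : ℝ) ≤ a := by exact_mod_cast ha
  have ha0 : (0 : ℝ) < a := by linarith
  have hφ : (0 : ℝ) < a.totient := by exact_mod_cast Nat.totient_pos.2 (by omega)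
  have hl2 := Real.log_two_gt_d9
  have hlog : 2 ≤ Real.log a := by
    have h1 : Real.log 8 ≤ Real.log a := Real.log_le_log (by norm_num) (by linarith)
    have h2 : Real.log 8 = 3 * Real.log 2 := by
      rw [show (8 : ℝ) = 2 ^ 3 by norm_num, Real.log_pow]; norm_num
    linarith
  have h1 := rat_le_log a (by omega)
  have h2 : Real.log a / Real.log 2 ≤ (3 / 2) * Real.log a := by
    rw [div_le_iff₀ (by linarith)]
    nlinarith
  have h3 : rat a ≤ 2 * Real.log a := by linarith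
  have h4 : (a : ℝ) ≤ 2 * Real.log a * a.totient := by
    unfold rat at h3
    rwa [div_le_iff₀ hφ] at h3
  constructor
  · rw [div_le_div_iff₀ (by norm_num) ha0]
    linarith
  · have h5 : Real.log a ≤ 2 * Real.sqrt a := by
      have h6 : Real.log (a : ℝ) = 2 * Real.log (Real.sqrt a) := by
        rw [Real.log_sqrt (by positivity)]; ring
      rw [h6]
      have h7 : Real.log (Real.sqrt (a : ℝ)) ≤ Real.sqrt a := Real.log_le_self (Real.sqrt_nonneg _)
      linarith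
    have hs : 0 < Real.sqrt a := Real.sqrt_pos.2 ha0
    have h6 : Real.sqrt a * Real.sqrt a = a := Real.mul_self_sqrt ha0.le
    have h7 : (a : ℝ) ≤ 4 * Real.sqrt a * a.totient := by
      calc (a : ℝ) ≤ 2 * Real.log a * a.totient := h4
        _ ≤ 2 * (2 * Real.sqrt a) * a.totient := by gcongr
        _ = _ := by ring
    rw [div_le_iff₀ (by norm_num)]
    by_contra hcon
    push Not at hcon
    have : 4 * Real.sqrt a * a.totient < Real.sqrt a * Real.sqrt a := by nlinarith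
    linarith

theorem main (k : ℕ) (hk : 1 ≤ k) (A : ℕ) : ∃ c : ℝ, 0 < c ∧ ∃ C : ℝ, ∃ a₀ : ℕ, ∀ a : ℕ, a₀ ≤ a → ∀ N : ℕ,
    C * (a.totient * Real.log a / a) ^ k ≤ N → N ≤ a ^ A →
    c * (a.totient : ℝ) ^ k ≤ (#((Fintype.piFinset (fun _ : Fin k => BB a)).filter (fun b =>
      Function.Injective b ∧ c * N * (a / (a.totient * Real.log a)) ^ k ≤ RR a N b)) : ℝ) := by
  classical
  obtain ⟨c3, hc3, a1, N1, hcheb⟩ := cheb A
  obtain ⟨C5, hC5, a2, hsec⟩ := second k
  obtain ⟨k', rfl⟩ : ∃ k', k = k' + 1 := ⟨k - 1, by omega⟩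
  set k := k' + 1 with hkdef
  set η : ℝ := c3 ^ (2 * k) / (16 * C5) with hη
  have hηpos : 0 < η := by positivity
  set Φ0 : ℝ := k ^ 2 / η with hΦ0
  refine ⟨min η (c3 ^ k / 2), lt_min hηpos (by positivity), 2 ^ k * (N1 + 1), max (max a1 a2) (max 10 ⌈(4 * Φ0) ^ 2⌉₊), ?_⟩
  intro a ha N hN hNA
  have haa1 : a1 ≤ a := ((le_max_left _ _).trans (le_max_left _ _)).trans ha
  have haa2 : a2 ≤ a := ((le_max_right _ _).trans (le_max_left _ _)).trans ha
  have ha10 : 10 ≤ a := ((le_max_left _ _).trans (le_max_right _ _)).trans ha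
  have haΦ : ⌈(4 * Φ0) ^ 2⌉₊ ≤ a := ((le_max_right _ _).trans (le_max_right _ _)).trans ha
  have har : (10 : ℝ) ≤ a := by exact_mod_cast ha10
  have ha0 : (0 : ℝ) < a := by linarith
  have hlog : 0 < Real.log a := Real.log_pos (by linarith)
  have hφ : (0 : ℝ) < a.totient := by exact_mod_cast Nat.totient_pos.2 (by omega)
  obtain ⟨hs, hsq⟩ := phi_facts a ha10
  set φ : ℝ := (a.totient : ℝ) with hφdef
  set Λ := Real.log a with hΛ
  obtain ⟨s, hsdef⟩ : ∃ s : ℝ, s = φ * Λ / a := ⟨_, rfl⟩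
  obtain ⟨q, hqdef⟩ : ∃ q : ℝ, q = (a : ℝ) / Λ := ⟨_, rfl⟩
  rw [← hsdef] at hs hN
  have hs0 : 0 < s := by rw [hsdef]; positivity
  have hq0 : 0 < q := by rw [hqdef]; positivity
  have hsk : (1 / 2 : ℝ) ^ k ≤ s ^ k := pow_le_pow_left₀ (by norm_num) hs k
  have hN1 : ((N1 : ℝ) + 1) ≤ N := by
    calc (N1 : ℝ) + 1 = 2 ^ k * (N1 + 1) * (1 / 2 : ℝ) ^ k := by
          rw [one_div, inv_pow]; field_simp
      _ ≤ 2 ^ k * (N1 + 1) * s ^ k := mul_le_mul_of_nonneg_left hsk (by positivity)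
      _ ≤ N := hN
  have hNN1 : N1 ≤ N := by
    have : (N1 : ℝ) ≤ N := by linarith
    exact_mod_cast this
  have hNpos : (0 : ℝ) < N := by
    have : (0 : ℝ) ≤ N1 := Nat.cast_nonneg _
    linarith
  have hsN : s ^ k ≤ N := by
    refine le_trans ?_ hN
    have : (1 : ℝ) ≤ 2 ^ k * (N1 + 1) := by
      have h1 : (1 : ℝ) ≤ 2 ^ k := one_le_pow₀ (by norm_num)
      have h2 : (0 : ℝ) ≤ N1 := Nat.cast_nonneg _
      nlinarith
    have h3 : 0 ≤ s ^ k := by positivity
    nlinarith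
  have hqs : q * s = φ := by rw [hqdef, hsdef]; field_simp
  have hinv : (a : ℝ) / (φ * Λ) = 1 / s := by rw [hsdef]; field_simp
  have hinv2 : (a : ℝ) / (φ * Λ) = q / φ := by rw [hqdef]; field_simp
  -- first moment
  set Ω := Fintype.piFinset (fun _ : Fin k => BB a) with hΩ
  have hΩc : (#Ω : ℝ) = φ ^ k := by
    rw [hΩ, Fintype.card_piFinset, Finset.prod_const, Finset.card_univ, Fintype.card_fin, card_BB a (by omega)]
    push_cast
    rfl
  have hΩpos : 0 < #Ω := by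
    have : (0 : ℝ) < #Ω := by rw [hΩc]; positivity
    exact_mod_cast this
  have hP := hcheb a haa1 N hNN1 hNA
  rw [← hqdef] at hP
  set P : ℕ → ℝ := fun n => (#((BB a).filter (fun x => (a * n + x).Prime)) : ℝ) with hPdef
  have h1 : (N : ℝ) * (c3 * q) ^ k ≤ ∑ b ∈ Ω, (RR a N b : ℝ) := by
    have e1 : ∑ b ∈ Ω, (RR a N b : ℝ) = ∑ n ∈ Icc 1 N, P n ^ k := by
      have := sum_R k a N
      have h2 : ((∑ b ∈ Ω, RR a N b : ℕ) : ℝ) = ((∑ n ∈ Icc 1 N, #((BB a).filter (fun x => (a * n + x).Prime)) ^ k : ℕ) : ℝ) := by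
        exact_mod_cast this
      push_cast at h2
      exact h2
    rw [e1]
    have e2 := pow_sum_div_card_le_sum_pow (s := Icc 1 N) (f := P) (fun n _ => Nat.cast_nonneg _) k'
    refine le_trans ?_ e2
    rw [Nat.card_Icc, Nat.add_sub_cancel]
    have e3 : c3 * N * q ≤ ∑ n ∈ Icc 1 N, P n := by
      push_cast at hP
      exact hP
    rw [le_div_iff₀ (by positivity)]
    calc (N : ℝ) * (c3 * q) ^ k * N ^ k' = (c3 * N * q) ^ (k' + 1) := by
          rw [hkdef, pow_succ, pow_succ, mul_pow, mul_pow, mul_pow]; ring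
      _ ≤ _ := pow_le_pow_left₀ (by positivity) e3 _
  -- second moment
  have h2 : ∑ b ∈ Ω, (RR a N b : ℝ) ^ 2 ≤ 2 * C5 * (N ^ 2 * (q / s) ^ k) := by
    have e1 := hsec a haa2 N
    push_cast at e1
    refine e1.trans ?_
    have e2 : (a : ℝ) / Λ * (a / (φ * Λ)) = q / s := by
      rw [hinv, hqdef]; ring
    have e3 : (N : ℝ) * q ^ k ≤ N ^ 2 * (q / s) ^ k := by
      rw [div_pow, mul_div_assoc', le_div_iff₀ (by positivity)]
      calc (N : ℝ) * q ^ k * s ^ k ≤ N * q ^ k * N := mul_le_mul_of_nonneg_left hsN (by positivity)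
        _ = _ := by ring
    have e4 : C5 * ((N : ℝ) * (a / Λ) ^ k + N ^ 2 * (a / Λ * (a / (φ * Λ))) ^ k) =
        C5 * (N * q ^ k + N ^ 2 * (q / s) ^ k) := by rw [e2, ← hqdef]
    rw [e4]
    nlinarith
  have hmain := count_large Ω (fun b => (RR a N b : ℝ)) (N * (c3 * q) ^ k) (2 * C5 * (N ^ 2 * (q / s) ^ k)) h1 h2
    (by positivity) (by positivity) hΩpos
  have e5 : ((N : ℝ) * (c3 * q) ^ k) ^ 2 / (4 * (2 * C5 * (N ^ 2 * (q / s) ^ k))) = 2 * η * φ ^ k := by
    rw [hη, ← hqs, div_pow, mul_pow, mul_pow]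
    have : c3 ^ (2 * k) = (c3 ^ k) ^ 2 := by rw [← pow_mul, mul_comm]
    rw [this]
    field_simp
    ring
  have e6 : (N : ℝ) * (c3 * q) ^ k / (2 * (#Ω : ℝ)) = c3 ^ k / 2 * N * (a / (φ * Λ)) ^ k := by
    rw [hΩc, hinv2, div_pow, mul_pow]
    field_simp
  rw [e5] at hmain
  set G := Ω.filter (fun b => (N : ℝ) * (c3 * q) ^ k / (2 * (#Ω : ℝ)) ≤ (RR a N b : ℝ)) with hG
  have hnon := card_noninj k (BB a) (by rw [card_BB a (by omega)]; exact Nat.totient_pos.2 (by omega))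
  rw [card_BB a (by omega), ← hΩ] at hnon
  have hnonr : (#(Ω.filter (fun b => ¬ Function.Injective b)) : ℝ) ≤ k ^ 2 * φ ^ k' := by
    have h9 : k - 1 = k' := by omega
    rw [h9] at hnon
    have h10 := (Nat.cast_le (α := ℝ)).2 hnon
    rw [Nat.cast_mul, Nat.cast_pow, Nat.cast_pow, ← hφdef] at h10
    exact h10
  have hφbig : (k : ℝ) ^ 2 ≤ η * φ := by
    have h3 : 4 * Φ0 ≤ Real.sqrt a := by
      apply Real.le_sqrt_of_sq_le
      exact (Nat.le_ceil _).trans (by exact_mod_cast haΦ)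
    have h4 : Φ0 ≤ φ := by linarith
    rw [hΦ0, div_le_iff₀ hηpos] at h4
    linarith
  have hsub : G ⊆ (Ω.filter (fun b => Function.Injective b ∧
      min η (c3 ^ k / 2) * N * (a / (φ * Λ)) ^ k ≤ RR a N b)) ∪ Ω.filter (fun b => ¬ Function.Injective b) := by
    intro b hb
    rw [hG, Finset.mem_filter] at hb
    rw [Finset.mem_union, Finset.mem_filter, Finset.mem_filter]
    by_cases hinj : Function.Injective b
    · left
      refine ⟨hb.1, hinj, le_trans ?_ hb.2⟩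
      rw [e6]
      have h5 : (0 : ℝ) ≤ (a / (φ * Λ)) ^ k := by positivity
      have h6 := min_le_right η (c3 ^ k / 2)
      exact mul_le_mul_of_nonneg_right (mul_le_mul_of_nonneg_right h6 hNpos.le) h5
    · exact Or.inr ⟨hb.1, hinj⟩
  have hcard : (#G : ℝ) ≤ #(Ω.filter (fun b => Function.Injective b ∧
      min η (c3 ^ k / 2) * N * (a / (φ * Λ)) ^ k ≤ RR a N b)) + k ^ 2 * φ ^ k' := by
    have h5 := (Finset.card_le_card hsub).trans (Finset.card_union_le _ _)
    have h6 : (#G : ℝ) ≤ (#(Ω.filter (fun b => Function.Injective b ∧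
      min η (c3 ^ k / 2) * N * (a / (φ * Λ)) ^ k ≤ RR a N b)) : ℝ) + #(Ω.filter (fun b => ¬ Function.Injective b)) := by
      exact_mod_cast h5
    linarith
  have h7 : (k : ℝ) ^ 2 * φ ^ k' ≤ η * φ ^ k := by
    rw [hkdef, pow_succ φ k']
    have : 0 ≤ φ ^ k' := by positivity
    calc ((k' + 1 : ℕ) : ℝ) ^ 2 * φ ^ k' ≤ (η * φ) * φ ^ k' := mul_le_mul_of_nonneg_right hφbig this
      _ = _ := by ring
  have h8 : min η (c3 ^ k / 2) * φ ^ k ≤ η * φ ^ k :=
    mul_le_mul_of_nonneg_right (min_le_left _ _) (by positivity)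
  linarith

end Pool.Agent.H262R2.UK
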